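import Pool.Agent.Results.MP_dd3545_lc.ForcedSeparation

/-! # Definitions for the results on measures vanishing on perfectly null sets -/

open MeasureTheory Filter Topology
open scoped ENNReal

namespace Pool.Agent.Y575.PN

open Pool.Agent.Results.MP_dd3545_lc.ForcedSeparation

/-- `μ` is the canonical measure of some nonempty perfect set `P`: the image of the Lebesgue
measure under the canonical homeomorphism of `P`. -/
def IsCanonicalMeasure (μ : Measure (ℕ → Bool)) : Prop :=
  ∃ P : Set (ℕ → Bool), Perfect P ∧ P.Nonempty ∧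
    ∃ h : (ℕ → Bool) ≃ₜ P, IsCanonical P h ∧ μ = lebesgue.map (fun y => (h y : ℕ → Bool))

/-- `ν` is absolutely continuous with respect to a countable sum of canonical measures. -/
def InBand (ν : Measure (ℕ → Bool)) : Prop :=
  ∃ κ : ℕ → Measure (ℕ → Bool), (∀ n, IsCanonicalMeasure (κ n)) ∧ ν ≪ Measure.sum κ

/-- Sierpinski type hypothesis: there is a set of positive outer Lebesgue measure all of whose
Lebesgue null subsets are universally null. -/
def SierpinskiType : Prop :=
  ∃ X : Set (ℕ → Bool), lebesgue X ≠ 0 ∧ ∀ Y ⊆ X, lebesgue Y = 0 → UniversallyNull Y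

/-- Fewer than continuum many Lebesgue null sets never cover the Cantor space. -/
def CovContinuum : Prop :=
  ∀ F : Set (Set (ℕ → Bool)), Cardinal.mk F < Cardinal.continuum →
    (∀ N ∈ F, lebesgue N = 0) → ⋃₀ F ≠ Set.univ

/-- Every set of fewer than continuum many points is Lebesgue null. -/
def NonContinuum : Prop :=
  ∀ Z : Set (ℕ → Bool), Cardinal.mk Z < Cardinal.continuum → lebesgue Z = 0

/-- Cylinders. -/
def cyl (x : ℕ → Bool) (n : ℕ) : Set (ℕ → Bool) := {y | ∀ i < n, y i = x i}

/-- Every next bit has conditional probability at most `q`. -/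
def Spread (ν : Measure (ℕ → Bool)) (q : ℝ≥0∞) : Prop :=
  ∀ x n, ν (cyl x (n + 1)) ≤ q * ν (cyl x n)

/-- `ν` is unfair: it is a probability, the conditional probability of any value of the next bit
is at most some `q < 1`, and almost no point has asymptotic frequency of ones `1/2`. -/
def Unfair (ν : Measure (ℕ → Bool)) : Prop :=
  IsProbabilityMeasure ν ∧ (∃ q < 1, Spread ν q) ∧ ν {x | Freq x (1 / 2)} = 0

end Pool.Agent.Y575.PN
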