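import Mathlib
import Pool.Agent.Helper212.Iso
import Pool.Agent.Results.MP_dd3545_lc.ForcedSeparation
import Pool.Agent.Y575.PN.Defs

open MeasureTheory Filter Topology
open scoped ENNReal

namespace Pool.Agent.Y575.PN

open Pool.Agent.Results.MP_dd3545_lc.ForcedSeparation

/-! ### Basic facts -/

instance leb_prob : IsProbabilityMeasure lebesgue := bern_prob (p := 1 / 2) half_le

instance leb_nullSingleton : NullSingletonClass lebesgue := ⟨leb_atom⟩

lemma canonical_emb {P : Set (ℕ → Bool)} (hP : Perfect P) (h : (ℕ → Bool) ≃ₜ P) :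
    MeasurableEmbedding (fun y => (h y : ℕ → Bool)) :=
  (hP.closed.isClosedEmbedding_subtypeVal.comp h.isClosedEmbedding).measurableEmbedding

lemma canonical_prob {μ : Measure (ℕ → Bool)} (hμ : IsCanonicalMeasure μ) :
    IsProbabilityMeasure μ := by
  obtain ⟨P, hP, -, h, -, rfl⟩ := hμ
  exact Measure.isProbabilityMeasure_map (canonical_emb hP h).measurable.aemeasurable

lemma canonical_atom {μ : Measure (ℕ → Bool)} (hμ : IsCanonicalMeasure μ) (x : ℕ → Bool) :
    μ {x} = 0 := by
  obtain ⟨P, hP, -, h, -, rfl⟩ := hμ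
  rw [(canonical_emb hP h).map_apply]
  have hs : ((fun y => (h y : ℕ → Bool)) ⁻¹' {x}).Subsingleton := by
    intro a ha b hb
    have : (h a : ℕ → Bool) = h b := by
      rw [Set.mem_preimage, Set.mem_singleton_iff] at ha hb
      rw [ha, hb]
    exact h.injective (Subtype.ext this)
  exact hs.countable.measure_zero _

/-- A set is perfectly null iff it is null for all canonical measures. -/
lemma perfectlyNull_iff (A : Set (ℕ → Bool)) :
    PerfectlyNull A ↔ ∀ μ, IsCanonicalMeasure μ → μ A = 0 := by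
  constructor
  · rintro hA μ ⟨P, hP, hne, h, hc, rfl⟩
    rw [(canonical_emb hP h).map_apply]
    obtain ⟨h', hc', h0⟩ := hA P hP hne
    convert h0 using 2
    ext y
    simp only [Set.mem_preimage, Set.mem_ofPred_eq]
    rw [canonical_unique hc hc' y]
  · intro hA P hP hne
    obtain ⟨h, hc⟩ := exists_canonical hP hne
    refine ⟨h, hc, ?_⟩
    have h0 := hA _ ⟨P, hP, hne, h, hc, rfl⟩
    rw [(canonical_emb hP h).map_apply] at h0
    exact h0

lemma PerfectlyNull.inBand_null {A : Set (ℕ → Bool)} (hA : PerfectlyNull A)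
    {ν : Measure (ℕ → Bool)} (hν : InBand ν) : ν A = 0 := by
  obtain ⟨κ, hκ, hac⟩ := hν
  apply hac
  rw [Measure.sum_apply_eq_zero]
  exact fun n => (perfectlyNull_iff A).mp hA _ (hκ n)

lemma exists_canonicalMeasure : ∃ μ, IsCanonicalMeasure μ := by
  have hP : Perfect (Set.univ : Set (ℕ → Bool)) := by
    refine ⟨isClosed_univ, ?_⟩
    rw [preperfect_iff_nhds]
    intro x _ U hU
    obtain ⟨n, hn⟩ := exists_cyl hU
    refine ⟨Function.update x n (!x n), ⟨hn ?_, trivial⟩, ?_⟩
    · intro i hi
      exact Function.update_of_ne (by omega) _ _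
    · intro h
      have := congrFun h n
      simp at this
  obtain ⟨h, hc⟩ := exists_canonical hP ⟨fun _ => true, trivial⟩
  exact ⟨_, _, hP, ⟨fun _ => true, trivial⟩, h, hc, rfl⟩

/-- A measurable isomorphism carrying the Lebesgue measure to a given diffused probability. -/
lemma exists_iso (ν : Measure (ℕ → Bool)) [IsProbabilityMeasure ν] (hν : ∀ x, ν {x} = 0) :
    ∃ g : (ℕ → Bool) ≃ᵐ (ℕ → Bool), lebesgue.map g = ν := by
  have : NullSingletonClass ν := ⟨hν⟩
  obtain ⟨e1, h1⟩ := Pool.Agent.Helper212.Sq.exists_mp_equiv lebesgue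
  obtain ⟨e2, h2⟩ := Pool.Agent.Helper212.Sq.exists_mp_equiv ν
  refine ⟨e1.trans e2.symm, ?_⟩
  have h3 : MeasurePreserving e2.symm volume ν := h2.symm e2
  exact (h3.comp h1).map_eq

/-- Measurable automorphisms preserve universally null sets. -/
lemma UniversallyNull.image {A : Set (ℕ → Bool)} (hA : UniversallyNull A)
    (g : (ℕ → Bool) ≃ᵐ (ℕ → Bool)) : UniversallyNull (g '' A) := by
  intro μ hfin hat
  have h := hA (μ.map g.symm) inferInstance (by
    intro x
    rw [g.symm.map_apply]
    have : g.symm ⁻¹' {x} = {g x} := by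
      ext y
      simp only [Set.mem_preimage, Set.mem_singleton_iff]
      exact ⟨fun h => by rw [← h, g.apply_symm_apply], fun h => by rw [h, g.symm_apply_apply]⟩
    rw [this]
    exact hat _)
  rw [g.symm.map_apply] at h
  convert h using 2
  ext y
  simp only [Set.mem_image, Set.mem_preimage]
  constructor
  · rintro ⟨x, hx, rfl⟩
    simpa using hx
  · intro hy
    exact ⟨g.symm y, hy, g.apply_symm_apply y⟩

/-! ### From singularity to perfectly null sets -/

/-- Under the Sierpinski type hypothesis: a nonzero finite measure which is singular to all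
canonical measures does not vanish on all perfectly null sets. -/
lemma exists_perfectlyNull (H : SierpinskiType) (ν : Measure (ℕ → Bool)) [IsFiniteMeasure ν]
    (h0 : ν ≠ 0) (hs : ∀ μ, IsCanonicalMeasure μ → ν ⟂ₘ μ) :
    ∃ A, PerfectlyNull A ∧ ν A ≠ 0 := by
  by_cases hat : ∀ x, ν {x} = 0
  · -- diffused case
    have hu : ν Set.univ ≠ 0 := by rwa [ne_eq, Measure.measure_univ_eq_zero]
    have hut : ν Set.univ ≠ ⊤ := measure_ne_top _ _
    let ν' : Measure (ℕ → Bool) := (ν Set.univ)⁻¹ • ν
    have hp : IsProbabilityMeasure ν' := ⟨by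
      simp only [ν', Measure.smul_apply, smul_eq_mul]
      exact ENNReal.inv_mul_cancel hu hut⟩
    have hc : (ν Set.univ)⁻¹ ≠ 0 := ENNReal.inv_ne_zero.mpr hut
    have hz : ∀ S, ν' S = 0 ↔ ν S = 0 := by
      intro S
      simp only [ν', Measure.smul_apply, smul_eq_mul, mul_eq_zero]
      exact ⟨fun h => h.resolve_left hc, Or.inr⟩
    obtain ⟨g, hg⟩ := exists_iso ν' (fun x => (hz _).mpr (hat x))
    obtain ⟨X, hX, hXn⟩ := H
    have hgS : ∀ S, ν S = 0 ↔ lebesgue (g ⁻¹' S) = 0 := by
      intro S
      rw [← hz S, ← hg, g.map_apply]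
    refine ⟨g '' X, ?_, ?_⟩
    · rw [perfectlyNull_iff]
      intro μ hμ
      obtain ⟨S, hSm, hS1, hS2⟩ := hs μ hμ
      have hsub : g '' X ⊆ Sᶜ ∪ g '' (X ∩ g ⁻¹' S) := by
        rintro _ ⟨x, hx, rfl⟩
        by_cases hS : g x ∈ S
        · exact Or.inr ⟨x, ⟨hx, hS⟩, rfl⟩
        · exact Or.inl hS
      refine measure_mono_null hsub (measure_union_null hS2 ?_)
      have hY : lebesgue (X ∩ g ⁻¹' S) = 0 :=
        measure_mono_null Set.inter_subset_right ((hgS S).mp hS1)
      have := canonical_prob hμ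
      exact UniversallyNull.image (hXn _ Set.inter_subset_left hY) g μ inferInstance
        (canonical_atom hμ)
    · intro h
      rw [hgS] at h
      exact hX (measure_mono_null (Set.subset_preimage_image g X) h)
  · -- an atom
    push Not at hat
    obtain ⟨x, hx⟩ := hat
    exact ⟨{x}, (perfectlyNull_iff _).mpr (fun μ hμ => canonical_atom hμ x), hx⟩

/-! ### The band generated by the canonical measures -/

lemma InBand.mono {ν ν' : Measure (ℕ → Bool)} (h : ν' ≪ ν) (hν : InBand ν) : InBand ν' := by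
  obtain ⟨κ, hκ, hac⟩ := hν
  exact ⟨κ, hκ, h.trans hac⟩

lemma InBand.sum {ν : ℕ → Measure (ℕ → Bool)} (h : ∀ n, InBand (ν n)) :
    InBand (Measure.sum ν) := by
  choose κ hκ hac using h
  refine ⟨fun n => κ (Nat.unpair n).1 (Nat.unpair n).2, fun n => hκ _ _, ?_⟩
  intro S hS
  rw [Measure.sum_apply_eq_zero] at hS ⊢
  intro n
  apply hac n
  rw [Measure.sum_apply_eq_zero]
  intro k
  have := hS (Nat.pair n k)
  simpa using this

lemma inBand_of_ac {ν μ : Measure (ℕ → Bool)} (hμ : IsCanonicalMeasure μ) (h : ν ≪ μ) :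
    InBand ν := by
  refine ⟨fun _ => μ, fun _ => hμ, h.trans ?_⟩
  intro S hS
  rw [Measure.sum_apply_eq_zero] at hS
  exact hS 0

lemma InBand.zero : InBand (0 : Measure (ℕ → Bool)) := by
  obtain ⟨μ, hμ⟩ := exists_canonicalMeasure
  exact inBand_of_ac hμ (Measure.AbsolutelyContinuous.zero _)

/-- Exhaustion: a finite measure which is not in the band has a nonzero restriction that is
singular to every canonical measure. -/
lemma exists_singular_part (ν : Measure (ℕ → Bool)) [IsFiniteMeasure ν] (hν : ¬ InBand ν) :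
    ∃ C : Set (ℕ → Bool), MeasurableSet C ∧ ν.restrict C ≠ 0 ∧
      ∀ μ, IsCanonicalMeasure μ → ν.restrict C ⟂ₘ μ := by
  let 𝓢 : Set ℝ≥0∞ := {c | ∃ B : Set (ℕ → Bool), MeasurableSet B ∧ InBand (ν.restrict B) ∧ ν B = c}
  have hne : 𝓢.Nonempty := ⟨0, ∅, MeasurableSet.empty, by simpa using InBand.zero, by simp⟩
  obtain ⟨c, hcm, hct, hcS⟩ := exists_seq_tendsto_sSup hne (OrderTop.bddAbove 𝓢)
  choose B hBm hBb hBc using hcS
  set D : Set (ℕ → Bool) := ⋃ n, B n with hD
  have hDm : MeasurableSet D := MeasurableSet.iUnion hBm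
  have hDb : InBand (ν.restrict D) := by
    refine InBand.mono ?_ (InBand.sum hBb)
    exact Measure.absolutelyContinuous_of_le (Measure.restrict_iUnion_le)
  have hDc : sSup 𝓢 ≤ ν D := by
    refine le_of_tendsto' hct (fun n => ?_)
    rw [← hBc n]
    exact measure_mono (Set.subset_iUnion B n)
  refine ⟨Dᶜ, hDm.compl, ?_, ?_⟩
  · intro h
    apply hν
    have h2 : ν = ν.restrict D + ν.restrict Dᶜ := (Measure.restrict_add_restrict_compl hDm).symm
    rw [h2, h, add_zero]
    exact hDb
  · intro μ hμ
    have hp := canonical_prob hμ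
    set ν' := ν.restrict Dᶜ with hν'
    have hfν : IsFiniteMeasure ν' := by rw [hν']; infer_instance
    have hs1 : SFinite ν' := inferInstance
    have hs2 : SigmaFinite μ := inferInstance
    have hs3 : ν'.HaveLebesgueDecomposition μ := Measure.haveLebesgueDecomposition_of_sigmaFinite _ _
    by_contra hns
    -- the absolutely continuous part is nonzero
    have hdec := Measure.haveLebesgueDecomposition_add ν' μ
    obtain ⟨T, hTm, hT1, hT2⟩ := Measure.mutuallySingular_singularPart ν' μ
    -- singularPart T = 0, μ Tᶜ = 0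
    have hac : ν'.restrict T ≪ μ := by
      refine Measure.AbsolutelyContinuous.mk (fun S hS h0 => ?_)
      rw [Measure.restrict_apply hS, hdec]
      simp only [Measure.add_apply, add_eq_zero]
      refine ⟨measure_mono_null Set.inter_subset_right hT1, ?_⟩
      exact withDensity_absolutelyContinuous μ _ (measure_mono_null Set.inter_subset_left h0)
    have hTpos : ν' T ≠ 0 := by
      intro h0
      exact hns ⟨T, hTm, h0, hT2⟩
    -- enlarge D
    have hE : InBand (ν.restrict (D ∪ (Dᶜ ∩ T))) := by
      have h1 : ∀ n : ℕ, InBand ((fun n : ℕ => if n = 0 then ν.restrict D else ν'.restrict T) n) := by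
        intro n
        by_cases hn : n = 0
        · simp only [hn, if_true]; exact hDb
        · simp only [hn, if_false]; exact inBand_of_ac hμ hac
      refine InBand.mono ?_ (InBand.sum h1)
      intro S hS
      rw [Measure.sum_apply_eq_zero] at hS
      have e0 := hS 0
      have e1 := hS 1
      simp only [if_true, one_ne_zero, if_false] at e0 e1
      refine le_antisymm ((Measure.restrict_union_le _ _ S).trans ?_) zero_le
      rw [Measure.add_apply, e0, zero_add]
      have e2 : ν.restrict (Dᶜ ∩ T) = ν'.restrict T := by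
        rw [hν', Measure.restrict_restrict hTm, Set.inter_comm]
      rw [e2, e1]
    have hm : MeasurableSet (D ∪ (Dᶜ ∩ T)) := hDm.union (hDm.compl.inter hTm)
    have hle : ν (D ∪ (Dᶜ ∩ T)) ≤ sSup 𝓢 := le_sSup ⟨_, hm, hE, rfl⟩
    have hun : ν (D ∪ (Dᶜ ∩ T)) = ν D + ν (Dᶜ ∩ T) := by
      apply measure_union _ (hDm.compl.inter hTm)
      exact disjoint_compl_right.mono_right Set.inter_subset_left
    have hT' : ν (Dᶜ ∩ T) = ν' T := by
      rw [hν', Measure.restrict_apply hTm, Set.inter_comm]
    rw [hun, hT'] at hle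
    have h3 : ν D + ν' T ≤ ν D + 0 := by
      rw [add_zero]; exact hle.trans hDc
    have h4 : ν' T ≤ 0 := (ENNReal.add_le_add_iff_left (measure_ne_top ν D)).mp h3
    exact hTpos (le_antisymm h4 zero_le)

/-- **Characterisation of the measures vanishing on all perfectly null sets.** -/
theorem vanish_iff (H : SierpinskiType) (ν : Measure (ℕ → Bool)) [IsFiniteMeasure ν] :
    (∀ A, PerfectlyNull A → ν A = 0) ↔ InBand ν := by
  constructor
  · intro h
    by_contra hν
    obtain ⟨C, hCm, hC0, hCs⟩ := exists_singular_part ν hν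
    obtain ⟨A, hA, hA0⟩ := exists_perfectlyNull H (ν.restrict C) hC0 hCs
    apply hA0
    exact le_antisymm ((Measure.restrict_apply_le _ _).trans (h A hA).le) zero_le
  · intro h A hA
    exact PerfectlyNull.inBand_null hA h

/-! ### When does the Sierpinski type hypothesis hold? -/

lemma countable_universallyNull {Y : Set (ℕ → Bool)} (hY : Y.Countable) : UniversallyNull Y := by
  intro μ _ hat
  have : NullSingletonClass μ := ⟨hat⟩
  exact hY.measure_zero μ

/-- It holds if there is a Sierpinski set. -/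
lemma sierpinskiType_of_sierpinski
    (h : ∃ X : Set (ℕ → Bool), ¬ X.Countable ∧ ∀ Y ⊆ X, lebesgue Y = 0 → Y.Countable) :
    SierpinskiType := by
  obtain ⟨X, hX, hXn⟩ := h
  exact ⟨X, fun h0 => hX (hXn X le_rfl h0), fun Y hY h0 => countable_universallyNull (hXn Y hY h0)⟩

open Cardinal in
/-- If all sets smaller than the continuum are Lebesgue null, then they are universally null. -/
lemma small_universallyNull (hnon : ∀ Z : Set (ℕ → Bool), #Z < 𝔠 → lebesgue Z = 0)
    {Z : Set (ℕ → Bool)} (hZ : #Z < 𝔠) : UniversallyNull Z := by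
  intro μ hfin hat
  by_cases h0 : μ Set.univ = 0
  · exact measure_mono_null (Set.subset_univ _) h0
  have hut : μ Set.univ ≠ ⊤ := measure_ne_top _ _
  let μ' : Measure (ℕ → Bool) := (μ Set.univ)⁻¹ • μ
  have hp : IsProbabilityMeasure μ' := ⟨by
    simp only [μ', Measure.smul_apply, smul_eq_mul]
    exact ENNReal.inv_mul_cancel h0 hut⟩
  have hc : (μ Set.univ)⁻¹ ≠ 0 := ENNReal.inv_ne_zero.mpr hut
  have hz : ∀ S, μ' S = 0 ↔ μ S = 0 := by
    intro S
    simp only [μ', Measure.smul_apply, smul_eq_mul, mul_eq_zero]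
    exact ⟨fun h => h.resolve_left hc, Or.inr⟩
  obtain ⟨g, hg⟩ := exists_iso μ' (fun x => (hz _).mpr (hat x))
  rw [← hz, ← hg, g.map_apply]
  apply hnon
  refine lt_of_le_of_lt ?_ hZ
  exact Cardinal.mk_preimage_of_injective _ _ g.injective

open Cardinal in
/-- It holds if the union of fewer than continuum many Lebesgue null sets is never the whole
space and all sets smaller than the continuum are Lebesgue null (for example under Martin's
axiom or the continuum hypothesis). -/
lemma sierpinskiType_of_cov_non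
    (hcov : ∀ F : Set (Set (ℕ → Bool)), #F < 𝔠 → (∀ N ∈ F, lebesgue N = 0) →
      ⋃₀ F ≠ Set.univ)
    (hnon : ∀ Z : Set (ℕ → Bool), #Z < 𝔠 → lebesgue Z = 0) : SierpinskiType := by
  classical
  let ι : Type := (Cardinal.continuum.{0}).ord.ToType
  have hι : #ι = 𝔠 := mk_ord_toType _
  have hIio : ∀ i : ι, #(Set.Iio i) < 𝔠 := by
    intro i
    have h1 : #(Set.Iio i) < #ι := mk_Iio_lt i (by simp [ι])
    rwa [hι] at h1
  have hIic : ∀ i : ι, #(Set.Iic i) < 𝔠 := by
    intro i
    have : Set.Iic i = insert i (Set.Iio i) := by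
      ext j; simp [le_iff_eq_or_lt]
    rw [this]
    refine lt_of_le_of_lt mk_insert_le ?_
    exact add_lt_of_lt aleph0_le_continuum (hIio i) (one_lt_aleph0.trans_le aleph0_le_continuum)
  let 𝒩 : Type := {N : Set (ℕ → Bool) // MeasurableSet N ∧ lebesgue N = 0}
  have h𝒩 : #𝒩 ≤ #ι := by
    rw [hι]
    have h1 : #{t : Set (ℕ → Bool) | MeasurableSet t} ≤ 𝔠 := by
      have h2 := MeasurableSpace.cardinal_measurableSet_le_continuum
        (s := MeasurableSpace.countableGeneratingSet (ℕ → Bool))
        ((MeasurableSpace.countable_countableGeneratingSet (α := ℕ → Bool)).le_aleph0.trans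
          aleph0_le_continuum)
      rw [MeasurableSpace.generateFrom_countableGeneratingSet] at h2
      exact h2
    refine le_trans ?_ h1
    exact Cardinal.mk_le_of_injective
      (f := fun N : 𝒩 => (⟨N.1, N.2.1⟩ : {t : Set (ℕ → Bool) | MeasurableSet t}))
      (fun a b h => by
        have := congrArg Subtype.val h
        exact Subtype.ext this)
  have hne : Nonempty 𝒩 := ⟨⟨∅, MeasurableSet.empty, measure_empty⟩⟩
  obtain ⟨g⟩ := Cardinal.le_def _ _ |>.mp h𝒩
  let f : ι → 𝒩 := Function.invFun g
  have hf : Function.Surjective f := Function.invFun_surjective g.injective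
  have hex : ∀ i : ι, ∃ x : ℕ → Bool, ∀ j ≤ i, x ∉ (f j).1 := by
    intro i
    by_contra hcon
    push Not at hcon
    refine hcov ((fun j => (f j).1) '' Set.Iic i) (lt_of_le_of_lt mk_image_le (hIic i)) ?_ ?_
    · rintro _ ⟨j, -, rfl⟩
      exact (f j).2.2
    · rw [Set.eq_univ_iff_forall]
      intro x
      obtain ⟨j, hj, hx⟩ := hcon x
      exact ⟨_, ⟨j, hj, rfl⟩, hx⟩
  choose a ha using hex
  refine ⟨Set.range a, ?_, ?_⟩
  · intro h0
    obtain ⟨j, hj⟩ := hf ⟨toMeasurable lebesgue (Set.range a), measurableSet_toMeasurable _ _, by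
      rw [measure_toMeasurable, h0]⟩
    apply ha j j le_rfl
    rw [hj]
    exact subset_toMeasurable _ _ ⟨j, rfl⟩
  · intro Y hY h0
    obtain ⟨j, hj⟩ := hf ⟨toMeasurable lebesgue Y, measurableSet_toMeasurable _ _, by
      rw [measure_toMeasurable, h0]⟩
    have hsub : Y ⊆ a '' (Set.Iio j) := by
      intro y hy
      obtain ⟨i, rfl⟩ := hY hy
      refine ⟨i, ?_, rfl⟩
      by_contra hc
      have hji : j ≤ i := not_lt.mp hc
      apply ha i j hji
      rw [hj]
      exact subset_toMeasurable _ _ hy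
    apply small_universallyNull hnon
    exact lt_of_le_of_lt ((mk_le_mk_of_subset hsub).trans mk_image_le) (hIio j)

open Cardinal in
/-- It holds under the continuum hypothesis. -/
lemma sierpinskiType_of_CH (CH : Cardinal.continuum.{0} = Cardinal.aleph 1) : SierpinskiType := by
  have hctb : ∀ {α : Type} (Z : Set α), #Z < 𝔠 → Z.Countable := by
    intro α Z hZ
    rw [CH] at hZ
    exact le_aleph0_iff_set_countable.mp (lt_aleph_one_iff.mp hZ)
  apply sierpinskiType_of_cov_non
  · intro F hF hN hU
    have h0 : lebesgue (⋃₀ F) = 0 := (measure_sUnion_null_iff (hctb F hF)).mpr hN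
    rw [hU, measure_univ] at h0
    exact one_ne_zero h0
  · intro Z hZ
    exact (hctb Z hZ).measure_zero _

/-! ### Measures singular to all canonical measures -/

lemma cyl_meas (x : ℕ → Bool) (n : ℕ) : MeasurableSet (cyl x n) :=
  (isOpen_cyl x n).measurableSet

/-- number of non-branching levels of `P` along `x` in `[j, j + N)` -/
noncomputable def nbI (P : Set (ℕ → Bool)) (x : ℕ → Bool) (j N : ℕ) : ℕ :=
  @Nat.count (fun i => ¬ Branching P x (j + i)) (Classical.decPred _) N

lemma nbI_succ_of {P : Set (ℕ → Bool)} {x : ℕ → Bool} {j : ℕ} (N : ℕ) (h : Branching P x j) :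
    nbI P x j (N + 1) = nbI P x (j + 1) N := by
  unfold nbI
  rw [@Nat.count_succ' _ (Classical.decPred _)]
  simp only [add_zero, h, not_true, if_false]
  exact count_eq (by funext k; rw [show j + (k + 1) = j + 1 + k by omega]) _ _ N

lemma nbI_succ_not {P : Set (ℕ → Bool)} {x : ℕ → Bool} {j : ℕ} (N : ℕ) (h : ¬ Branching P x j) :
    nbI P x j (N + 1) = nbI P x (j + 1) N + 1 := by
  unfold nbI
  rw [@Nat.count_succ' _ (Classical.decPred _)]
  simp only [add_zero, h, not_false_eq_true, if_true]
  rw [count_eq (by funext k; rw [show j + (k + 1) = j + 1 + k by omega]) _ _ N]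

lemma cyl_update_subset (x : ℕ → Bool) (j : ℕ) (b : Bool) :
    cyl (Function.update x j b) (j + 1) = {y | y ∈ cyl x j ∧ y j = b} := by
  ext y
  simp only [cyl, Set.mem_ofPred_eq]
  constructor
  · intro h
    refine ⟨fun i hi => ?_, ?_⟩
    · rw [h i (by omega), Function.update_of_ne (by omega)]
    · rw [h j (by omega), Function.update_self]
  · rintro ⟨h1, h2⟩ i hi
    rcases Nat.lt_succ_iff_lt_or_eq.mp hi with h | rfl
    · rw [Function.update_of_ne (by omega), h1 i h]
    · rw [Function.update_self, h2]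

lemma cyl_split (ν : Measure (ℕ → Bool)) (x : ℕ → Bool) (j : ℕ) :
    ν (cyl (Function.update x j true) (j + 1)) + ν (cyl (Function.update x j false) (j + 1)) ≤
      ν (cyl x j) := by
  rw [← measure_union _ (cyl_meas _ _)]
  · apply measure_mono
    rw [cyl_update_subset, cyl_update_subset]
    rintro y (h | h) <;> exact h.1
  · rw [cyl_update_subset, cyl_update_subset, Set.disjoint_left]
    rintro y ⟨-, h1⟩ ⟨-, h2⟩
    rw [h1] at h2
    exact absurd h2 (by decide)

lemma spread_nb {ν : Measure (ℕ → Bool)} {q : ℝ≥0∞} (hq : Spread ν q) (P : Set (ℕ → Bool))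
    (N : ℕ) : ∀ (k j : ℕ) (x : ℕ → Bool),
    ν {y | y ∈ cyl x j ∧ y ∈ P ∧ k ≤ nbI P y j N} ≤ q ^ k * ν (cyl x j) := by
  induction N with
  | zero =>
    intro k j x
    cases k with
    | zero =>
      rw [pow_zero, one_mul]
      exact measure_mono (fun y hy => hy.1)
    | succ k => simp [nbI]
  | succ N ih =>
    intro k j x
    by_cases hbr : Branching P x j
    · have hsub : {y | y ∈ cyl x j ∧ y ∈ P ∧ k ≤ nbI P y j (N + 1)} ⊆
          {y | y ∈ cyl (Function.update x j true) (j + 1) ∧ y ∈ P ∧ k ≤ nbI P y (j + 1) N} ∪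
          {y | y ∈ cyl (Function.update x j false) (j + 1) ∧ y ∈ P ∧ k ≤ nbI P y (j + 1) N} := by
        rintro y ⟨h1, h2, h3⟩
        have hby : Branching P y j := (branching_congr P h1).mpr hbr
        rw [nbI_succ_of N hby] at h3
        cases h0 : y j
        · right
          refine ⟨?_, h2, h3⟩
          rw [cyl_update_subset]; exact ⟨h1, h0⟩
        · left
          refine ⟨?_, h2, h3⟩
          rw [cyl_update_subset]; exact ⟨h1, h0⟩
      refine (measure_mono hsub).trans ((measure_union_le _ _).trans ?_)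
      refine (add_le_add (ih _ _ _) (ih _ _ _)).trans ?_
      rw [← mul_add]
      exact mul_le_mul_right (cyl_split ν x j) _
    · cases k with
      | zero =>
        rw [pow_zero, one_mul]
        exact measure_mono (fun y hy => hy.1)
      | succ k =>
        have hbr' := hbr
        unfold Branching at hbr'
        push Not at hbr'
        obtain ⟨b, hb⟩ := hbr'
        have hsub : {y | y ∈ cyl x j ∧ y ∈ P ∧ k + 1 ≤ nbI P y j (N + 1)} ⊆
            {y | y ∈ cyl (Function.update x j (!b)) (j + 1) ∧ y ∈ P ∧ k ≤ nbI P y (j + 1) N} := by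
          rintro y ⟨h1, h2, h3⟩
          have hby : ¬ Branching P y j := fun h => hbr ((branching_congr P h1).mp h)
          rw [nbI_succ_not N hby] at h3
          have h0 := hb y h2 h1
          refine ⟨?_, h2, by omega⟩
          rw [cyl_update_subset]
          refine ⟨h1, ?_⟩
          cases b <;> cases h : y j <;> simp_all
        refine (measure_mono hsub).trans ((ih _ _ _).trans ?_)
        rw [pow_succ, mul_assoc]
        refine mul_le_mul_right ((hq _ _).trans (mul_le_mul_right ?_ _)) _
        apply measure_mono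
        intro y hy i hi
        rw [hy i hi, Function.update_of_ne (by omega)]

lemma spread_null_inf {ν : Measure (ℕ → Bool)} [IsFiniteMeasure ν] {q : ℝ≥0∞}
    (hq : Spread ν q) (hq1 : q < 1) (P : Set (ℕ → Bool)) :
    ν {x | x ∈ P ∧ ∃ᶠ n in atTop, ¬ Branching P x n} = 0 := by
  have hk : ∀ k : ℕ, ν {x | x ∈ P ∧ ∃ᶠ n in atTop, ¬ Branching P x n} ≤ q ^ k * ν Set.univ := by
    intro k
    have hsub : {x | x ∈ P ∧ ∃ᶠ n in atTop, ¬ Branching P x n} ⊆
        ⋃ N : ℕ, {x | x ∈ P ∧ k ≤ nbI P x 0 N} := by
      rintro x ⟨hx, hf⟩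
      simp only [Set.mem_iUnion]
      have hinf : (Set.ofPred (fun n => ¬ Branching P x n)).Infinite :=
        Nat.frequently_atTop_iff_infinite.mp hf
      refine ⟨Nat.nth (fun n => ¬ Branching P x n) k, hx, ?_⟩
      have h1 := (@Nat.count_nth_of_infinite (fun n => ¬ Branching P x n)
        (Classical.decPred _) hinf k).ge
      refine h1.trans (le_of_eq ?_)
      unfold nbI
      exact count_eq (by funext i; rw [zero_add]) _ _ _
    refine (measure_mono hsub).trans ?_
    rw [Monotone.measure_iUnion]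
    · refine iSup_le (fun N => ?_)
      have h2 := spread_nb hq P N k 0 (fun _ => true)
      have h3 : cyl (fun _ => true) 0 = Set.univ := by
        ext y; simp [cyl]
      rw [h3] at h2
      simpa using h2
    · intro M N hMN x hx
      refine ⟨hx.1, hx.2.trans ?_⟩
      exact @Nat.count_monotone _ (Classical.decPred _) M N hMN
  have hlim : Tendsto (fun k : ℕ => q ^ k * ν Set.univ) atTop (𝓝 (0 * ν Set.univ)) := by
    apply ENNReal.Tendsto.mul_const (ENNReal.tendsto_pow_atTop_nhds_zero_of_lt_one hq1)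
    right
    exact measure_ne_top _ _
  rw [zero_mul] at hlim
  exact le_antisymm (ge_of_tendsto' hlim hk) zero_le

/-- A spread measure whose points have no asymptotic frequency `1/2` is singular to all
canonical measures. -/
lemma spread_singular {ν : Measure (ℕ → Bool)} [IsFiniteMeasure ν] {q : ℝ≥0∞}
    (hq : Spread ν q) (hq1 : q < 1) (hf : ν {x | Freq x (1 / 2)} = 0)
    {μ : Measure (ℕ → Bool)} (hμ : IsCanonicalMeasure μ) : ν ⟂ₘ μ := by
  obtain ⟨P, hP, hne, h, hc, rfl⟩ := hμ
  set N : Set (ℕ → Bool) := {x | x ∈ P ∧ ∃ᶠ n in atTop, ¬ Branching P x n} ∪ {x | Freq x (1 / 2)}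
    with hN
  have hN0 : ν N = 0 := measure_union_null (spread_null_inf hq hq1 P) hf
  refine ⟨toMeasurable ν N, measurableSet_toMeasurable _ _, by rw [measure_toMeasurable, hN0], ?_⟩
  rw [(canonical_emb hP h).map_apply]
  have hleb : lebesgue {y | ¬ Freq y (1 / 2)} = 0 := by
    have h1 := ae_freq (p := 1 / 2) half_le
    have h2 : ((1 / 2 : ℝ≥0∞)).toReal = 1 / 2 := by simp
    rw [h2] at h1
    exact h1
  refine measure_mono_null ?_ hleb
  intro y hy hfr
  apply hy
  apply subset_toMeasurable
  by_cases c1 : ∃ᶠ n in atTop, ¬ Branching P (h y : ℕ → Bool) n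
  · exact Or.inl ⟨(h y).2, c1⟩
  · right
    have hev : ∀ᶠ n in atTop, Branching P (h y : ℕ → Bool) n := by
      simpa [Filter.Frequently] using c1
    obtain ⟨K, hK⟩ := eventually_atTop.mp hev
    obtain ⟨a, ha⟩ := turns_shift (P := P) (x := (h y : ℕ → Bool)) (K := K) hK
    have ht : turns P (h y) = y := funext (hc y)
    rw [ht] at ha
    exact Freq.shift (x := y) (y := (h y : ℕ → Bool)) (a := K) (b := a) (fun i => (ha i).symm) hfr

/-! ### Bernoulli measures -/

lemma bern_spread {p : ℝ≥0∞} (hp : p ≤ 1) : Spread (bern p) (max p (1 - p)) := by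
  intro x n
  unfold cyl
  rw [bern_cyl hp, bern_cyl hp, Finset.prod_range_succ, mul_comm]
  refine mul_le_mul' ?_ le_rfl
  cases x n
  · rw [coin_false]; exact le_max_right _ _
  · rw [coin_true]; exact le_max_left _ _

lemma bern_singular {p : ℝ≥0∞} (h0 : 0 < p) (h1 : p < 1) (h2 : p ≠ 1 / 2)
    {μ : Measure (ℕ → Bool)} (hμ : IsCanonicalMeasure μ) : bern p ⟂ₘ μ := by
  have hprob := bern_prob h1.le
  refine spread_singular (bern_spread h1.le) ?_ ?_ hμ
  · refine max_lt h1 ?_
    exact ENNReal.sub_lt_self (by simp) (by simp) h0.ne'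
  · have h := ae_freq (p := p) h1.le
    have h3 : ∀ᵐ x ∂(bern p), ¬ Freq x (1 / 2) := by
      filter_upwards [h] with x hx h4
      have h5 := Freq.unique hx h4
      apply h2
      rw [← ENNReal.ofReal_toReal (ne_top_of_lt h1), h5]
      rw [ENNReal.ofReal_div_of_pos (by norm_num)]; simp
    simpa [ae_iff] using h3

/-! ### A homeomorphism of the Cantor space carrying the Lebesgue measure out of the band

The homeomorphism replaces, in every pair of bits, `00, 01, 10, 11` by the words
`0, 10, 110, 111` of a complete prefix code. -/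

/-- drop two bits -/
def sh (y : ℕ → Bool) : ℕ → Bool := fun n => y (n + 2)

/-- length of the code word of a pair of bits -/
def wlen (a b : Bool) : ℕ := if a then 3 else if b then 2 else 1

/-- bits of the code word of a pair of bits -/
def wbit (a b : Bool) (n : ℕ) : Bool := if n = 0 then a || b else if n = 1 then a else b

lemma wlen_pos (a b : Bool) : 0 < wlen a b := by cases a <;> cases b <;> decide

lemma wlen_le (a b : Bool) : wlen a b ≤ 3 := by cases a <;> cases b <;> decide

/-- Replace every pair of bits by its code word. -/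
def psi (y : ℕ → Bool) (n : ℕ) : Bool :=
  if n < wlen (y 0) (y 1) then wbit (y 0) (y 1) n
  else psi (sh y) (n - wlen (y 0) (y 1))
termination_by n
decreasing_by
  have := wlen_pos (y 0) (y 1)
  omega

lemma psi_lt {y : ℕ → Bool} {n : ℕ} (h : n < wlen (y 0) (y 1)) :
    psi y n = wbit (y 0) (y 1) n := by
  rw [psi, if_pos h]

lemma psi_ge {y : ℕ → Bool} {n : ℕ} (h : ¬ n < wlen (y 0) (y 1)) :
    psi y n = psi (sh y) (n - wlen (y 0) (y 1)) := by
  rw [psi, if_neg h]

lemma psi_add (y : ℕ → Bool) (n : ℕ) : psi y (wlen (y 0) (y 1) + n) = psi (sh y) n := by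
  rw [psi, if_neg (by omega)]
  congr 1
  omega

lemma psi_congr (n : ℕ) : ∀ y y' : ℕ → Bool, (∀ i < 2 * (n + 1), y' i = y i) →
    psi y' n = psi y n := by
  induction n using Nat.strong_induction_on with
  | _ n ih =>
    intro y y' h
    have h0 : y' 0 = y 0 := h 0 (by omega)
    have h1 : y' 1 = y 1 := h 1 (by omega)
    by_cases hl : n < wlen (y 0) (y 1)
    · rw [psi_lt hl, psi_lt (by rw [h0, h1]; exact hl), h0, h1]
    · rw [psi_ge hl, psi_ge (by rw [h0, h1]; exact hl), h0, h1]
      have := wlen_pos (y 0) (y 1)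
      apply ih _ (by omega)
      intro i hi
      exact h (i + 2) (by omega)

/-- length of the first code word of `x` -/
def dlen (x : ℕ → Bool) : ℕ := if x 0 then (if x 1 then 3 else 2) else 1

/-- first pair of bits of the decoded sequence -/
def dfst (x : ℕ → Bool) : Bool := x 0 && x 1

def dsnd (x : ℕ → Bool) : Bool := x 0 && (!x 1 || x 2)

/-- drop the first code word -/
def dsh (x : ℕ → Bool) : ℕ → Bool := fun n => x (dlen x + n)

lemma dlen_eq (x : ℕ → Bool) : wlen (dfst x) (dsnd x) = dlen x := by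
  unfold wlen dfst dsnd dlen
  cases x 0 <;> cases x 1 <;> cases x 2 <;> rfl

lemma dbit_eq (x : ℕ → Bool) {n : ℕ} (hn : n < dlen x) : wbit (dfst x) (dsnd x) n = x n := by
  unfold dlen at hn
  unfold wbit dfst dsnd
  rcases n with _ | _ | _ | n
  · cases x 0 <;> cases x 1 <;> cases x 2 <;> rfl
  · cases h0 : x 0
    · simp [h0] at hn
    · cases x 1 <;> cases x 2 <;> rfl
  · cases h0 : x 0
    · simp [h0] at hn
    · cases h1 : x 1
      · simp [h0, h1] at hn
      · cases x 2 <;> rfl
  · split_ifs at hn <;> omega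

lemma dfst_psi (y : ℕ → Bool) : dfst (psi y) = y 0 := by
  unfold dfst
  cases h0 : y 0 <;> cases h1 : y 1
  · have : psi y 0 = false := by rw [psi_lt (by simp [h0, h1, wlen])]; simp [wbit, h0, h1]
    simp [this]
  · have : psi y 1 = false := by rw [psi_lt (by simp [h0, h1, wlen])]; simp [wbit, h0]
    simp [this]
  · have a1 : psi y 0 = true := by rw [psi_lt (by simp [h0, wlen])]; simp [wbit, h0]
    have a2 : psi y 1 = true := by rw [psi_lt (by simp [h0, wlen])]; simp [wbit, h0]
    simp [a1, a2]
  · have a1 : psi y 0 = true := by rw [psi_lt (by simp [h0, wlen])]; simp [wbit, h0]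
    have a2 : psi y 1 = true := by rw [psi_lt (by simp [h0, wlen])]; simp [wbit, h0]
    simp [a1, a2]

lemma dsnd_psi (y : ℕ → Bool) : dsnd (psi y) = y 1 := by
  unfold dsnd
  cases h0 : y 0 <;> cases h1 : y 1
  · have : psi y 0 = false := by rw [psi_lt (by simp [h0, h1, wlen])]; simp [wbit, h0, h1]
    simp [this]
  · have a1 : psi y 0 = true := by rw [psi_lt (by simp [h0, h1, wlen])]; simp [wbit, h1]
    have a2 : psi y 1 = false := by rw [psi_lt (by simp [h0, h1, wlen])]; simp [wbit, h0]
    simp [a1, a2]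
  · have a1 : psi y 0 = true := by rw [psi_lt (by simp [h0, wlen])]; simp [wbit, h0]
    have a2 : psi y 1 = true := by rw [psi_lt (by simp [h0, wlen])]; simp [wbit, h0]
    have a3 : psi y 2 = false := by rw [psi_lt (by simp [h0, wlen])]; simp [wbit, h1]
    simp [a1, a2, a3]
  · have a1 : psi y 0 = true := by rw [psi_lt (by simp [h0, wlen])]; simp [wbit, h0]
    have a2 : psi y 1 = true := by rw [psi_lt (by simp [h0, wlen])]; simp [wbit, h0]
    have a3 : psi y 2 = true := by rw [psi_lt (by simp [h0, wlen])]; simp [wbit, h1]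
    simp [a1, a2, a3]

lemma dlen_psi (y : ℕ → Bool) : dlen (psi y) = wlen (y 0) (y 1) := by
  rw [← dlen_eq, dfst_psi, dsnd_psi]

lemma dsh_psi (y : ℕ → Bool) : dsh (psi y) = psi (sh y) := by
  funext n
  unfold dsh
  rw [dlen_psi, psi_add]

lemma psi_injective : Function.Injective psi := by
  have key : ∀ (k : ℕ) (y y' : ℕ → Bool), psi y = psi y' →
      y (2 * k) = y' (2 * k) ∧ y (2 * k + 1) = y' (2 * k + 1) := by
    intro k
    induction k with
    | zero =>
      intro y y' h
      refine ⟨?_, ?_⟩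
      · rw [mul_zero, ← dfst_psi y, h, dfst_psi]
      · rw [mul_zero, zero_add, ← dsnd_psi y, h, dsnd_psi]
    | succ k ih =>
      intro y y' h
      have h2 : psi (sh y) = psi (sh y') := by rw [← dsh_psi, h, dsh_psi]
      exact ih (sh y) (sh y') h2
  intro y y' h
  funext n
  rcases Nat.even_or_odd' n with ⟨k, rfl | rfl⟩
  · exact (key k y y' h).1
  · exact (key k y y' h).2

lemma psi_continuous : Continuous psi := by
  rw [continuous_pi_iff]
  intro n
  rw [continuous_iff_continuousAt]
  intro y
  apply ContinuousAt.congr (f := fun _ => psi y n) continuousAt_const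
  filter_upwards [(isOpen_cyl y (2 * (n + 1))).mem_nhds (fun i _ => rfl)] with y' hy'
  exact (psi_congr n y y' hy').symm

lemma psi_approx (n : ℕ) : ∀ x : ℕ → Bool, ∃ y, ∀ i < n, psi y i = x i := by
  induction n using Nat.strong_induction_on with
  | _ n ih =>
    intro x
    rcases Nat.eq_zero_or_pos n with rfl | hn
    · exact ⟨fun _ => true, by simp⟩
    have hl : 0 < dlen x := by rw [← dlen_eq]; exact wlen_pos _ _
    obtain ⟨y', hy'⟩ := ih (n - dlen x) (by omega) (dsh x)
    let y : ℕ → Bool := fun i => if i = 0 then dfst x else if i = 1 then dsnd x else y' (i - 2)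
    have hy0 : y 0 = dfst x := rfl
    have hy1 : y 1 = dsnd x := rfl
    have hsh : sh y = y' := by funext i; simp [sh, y]
    have hlen : wlen (y 0) (y 1) = dlen x := by rw [hy0, hy1, dlen_eq]
    refine ⟨y, fun i hi => ?_⟩
    by_cases hil : i < dlen x
    · rw [psi_lt (by rw [hlen]; exact hil), hy0, hy1, dbit_eq x hil]
    · have h1 := psi_add y (i - dlen x)
      rw [hlen, hsh, show dlen x + (i - dlen x) = i by omega] at h1
      rw [h1, hy' _ (by omega)]
      unfold dsh
      congr 1
      omega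

lemma psi_surjective : Function.Surjective psi := by
  intro x
  have hcl : IsClosed (Set.range psi) := (isCompact_range psi_continuous).isClosed
  have hmem : x ∈ closure (Set.range psi) := by
    rw [mem_closure_iff_nhds]
    intro U hU
    obtain ⟨n, hn⟩ := exists_cyl hU
    obtain ⟨y, hy⟩ := psi_approx n x
    exact ⟨psi y, hn hy, ⟨y, rfl⟩⟩
  rw [hcl.closure_eq] at hmem
  exact hmem

/-- The coding homeomorphism. -/
noncomputable def psiHomeo : (ℕ → Bool) ≃ₜ (ℕ → Bool) :=
  (Continuous.homeoOfEquivCompactToT2 (f := Equiv.ofBijective psi ⟨psi_injective, psi_surjective⟩)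
    psi_continuous)

lemma psiHomeo_apply (y : ℕ → Bool) : psiHomeo y = psi y := rfl

/-- image of the Lebesgue measure -/
noncomputable def nuPsi : Measure (ℕ → Bool) := lebesgue.map psi

instance : IsProbabilityMeasure nuPsi :=
  Measure.isProbabilityMeasure_map psi_continuous.measurable.aemeasurable

lemma leb_pair {T : Set (ℕ → Bool)} (hT : MeasurableSet T) (a b : Bool) :
    lebesgue {y | y 0 = a ∧ y 1 = b ∧ sh y ∈ T} = 1 / 4 * lebesgue T := by
  have hc : ∀ b, coin (1 / 2) {b} = 1 / 2 := by
    intro b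
    cases b
    · rw [coin_false]; simp
    · rw [coin_true]
  have hs : Measurable (fun (x : ℕ → Bool) (n : ℕ) => x (n + 1)) :=
    measurable_pi_lambda _ (fun n => measurable_pi_apply (n + 1))
  have hm0 : MeasurableSet {x : ℕ → Bool | x 0 = b} := by
    change MeasurableSet ((fun x : ℕ → Bool => x 0) ⁻¹' {b})
    exact (measurable_pi_apply (0 : ℕ)) (MeasurableSet.singleton b)
  have hm : MeasurableSet {x : ℕ → Bool | x 0 = b ∧ (fun n => x (n + 1)) ∈ T} :=
    hm0.inter (hs hT)
  have h0 : (1 / 2 : ℝ≥0∞) ≠ 0 := by simp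
  have h1 : (1 / 2 : ℝ≥0∞) ≠ 1 := by
    intro h
    have := congrArg ENNReal.toReal h
    norm_num at this
  have e1 := bern_pre_meas (p := 1 / 2) half_le h0 h1 a hm
  have e2 := bern_pre_meas (p := 1 / 2) half_le h0 h1 b hT
  rw [hc] at e1 e2
  have e3 : {y : ℕ → Bool | y 0 = a ∧ y 1 = b ∧ sh y ∈ T} =
      {x | x 0 = a ∧ (fun n => x (n + 1)) ∈
        {x : ℕ → Bool | x 0 = b ∧ (fun n => x (n + 1)) ∈ T}} := by
    ext y
    rfl
  rw [e3]
  change bern (1 / 2) _ = _ * bern (1 / 2) _
  rw [e1, e2, ← mul_assoc]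
  congr 1
  rw [← ENNReal.toReal_eq_toReal_iff' (by finiteness) (by finiteness)]
  norm_num

/-! #### The image measure is spread -/

lemma cyl_congr {x x' : ℕ → Bool} {n : ℕ} (h : ∀ i < n, x i = x' i) : cyl x n = cyl x' n := by
  ext y
  simp only [cyl, Set.mem_ofPred_eq]
  exact ⟨fun hy i hi => (hy i hi).trans (h i hi), fun hy i hi => (hy i hi).trans (h i hi).symm⟩

lemma first_word {x z : ℕ → Bool} (h : ∀ i < dlen x, z i = x i) :
    dfst z = dfst x ∧ dsnd z = dsnd x := by
  unfold dlen at h
  unfold dfst dsnd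
  cases h0 : x 0
  · have a0 : z 0 = false := by rw [h 0 (by simp [h0]), h0]
    simp [a0]
  · cases h1 : x 1
    · have a0 : z 0 = true := by rw [h 0 (by simp [h0, h1]), h0]
      have a1 : z 1 = false := by rw [h 1 (by simp [h0, h1]), h1]
      simp [a0, a1]
    · have a0 : z 0 = true := by rw [h 0 (by simp [h0, h1]), h0]
      have a1 : z 1 = true := by rw [h 1 (by simp [h0, h1]), h1]
      have a2 : z 2 = x 2 := h 2 (by simp [h0, h1])
      simp [a0, a1, a2]

lemma nuPsi_apply {A : Set (ℕ → Bool)} : nuPsi A = lebesgue (psi ⁻¹' A) := by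
  have he : MeasurableEmbedding psi := psiHomeo.measurableEmbedding
  rw [nuPsi, he.map_apply]

/-- The mass of a cylinder. -/
noncomputable def mass (x : ℕ → Bool) (n : ℕ) : ℝ := (nuPsi (cyl x n)).toReal

lemma mass_rec (x : ℕ → Bool) (m : ℕ) : mass x (dlen x + m) = 1 / 4 * mass (dsh x) m := by
  unfold mass
  have hset : psi ⁻¹' (cyl x (dlen x + m)) =
      {y | y 0 = dfst x ∧ y 1 = dsnd x ∧ sh y ∈ psi ⁻¹' (cyl (dsh x) m)} := by
    ext y
    constructor
    · intro hy
      have hy' : ∀ i < dlen x + m, psi y i = x i := hy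
      obtain ⟨h1, h2⟩ := first_word (x := x) (z := psi y) (fun i hi => hy' i (by omega))
      rw [dfst_psi] at h1
      rw [dsnd_psi] at h2
      refine ⟨h1, h2, ?_⟩
      intro i hi
      have h3 := psi_add y i
      rw [h1, h2, dlen_eq] at h3
      rw [← h3, hy' _ (by omega)]
      rfl
    · rintro ⟨h1, h2, h3⟩
      have hlen : wlen (y 0) (y 1) = dlen x := by rw [h1, h2, dlen_eq]
      intro i hi
      by_cases hil : i < dlen x
      · rw [psi_lt (by rw [hlen]; exact hil), h1, h2, dbit_eq x hil]
      · rw [psi_ge (by rw [hlen]; exact hil), hlen]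
        have h4 : psi (sh y) (i - dlen x) = dsh x (i - dlen x) := h3 _ (by omega)
        rw [h4]
        unfold dsh
        congr 1
        omega
  rw [nuPsi_apply, hset, leb_pair ((cyl_meas _ _).preimage psi_continuous.measurable),
    ENNReal.toReal_mul, nuPsi_apply]
  congr 1
  simp

lemma mass_zero (x : ℕ → Bool) : mass x 0 = 1 := by
  unfold mass
  have : cyl x 0 = Set.univ := by ext y; simp [cyl]
  rw [this, measure_univ, ENNReal.toReal_one]

lemma mass_leaf (x : ℕ → Bool) : mass x (dlen x) = 1 / 4 := by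
  have := mass_rec x 0
  rw [add_zero, mass_zero, mul_one] at this
  exact this

lemma mass_congr {x x' : ℕ → Bool} {n : ℕ} (h : ∀ i < n, x i = x' i) : mass x n = mass x' n := by
  unfold mass
  rw [cyl_congr h]

lemma mass_split (x : ℕ → Bool) (j : ℕ) :
    mass (Function.update x j true) (j + 1) + mass (Function.update x j false) (j + 1) ≤
      mass x j := by
  unfold mass
  rw [← ENNReal.toReal_add (measure_ne_top _ _) (measure_ne_top _ _)]
  exact ENNReal.toReal_mono (measure_ne_top _ _) (cyl_split nuPsi x j)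

lemma mass_split' (x : ℕ → Bool) (j : ℕ) (hj : x j = true) :
    mass x (j + 1) + mass (Function.update x j false) (j + 1) ≤ mass x j := by
  have h := mass_split x j
  rwa [← hj, Function.update_eq_self] at h

lemma mass_F {x : ℕ → Bool} (h0 : x 0 = false) : mass x 1 = 1 / 4 := by
  have := mass_leaf x
  rwa [show dlen x = 1 by simp [dlen, h0]] at this

lemma mass_TF {x : ℕ → Bool} (h0 : x 0 = true) (h1 : x 1 = false) : mass x 2 = 1 / 4 := by
  have := mass_leaf x
  rwa [show dlen x = 2 by simp [dlen, h0, h1]] at this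

lemma mass_TT3 {x : ℕ → Bool} (h0 : x 0 = true) (h1 : x 1 = true) : mass x 3 = 1 / 4 := by
  have := mass_leaf x
  rwa [show dlen x = 3 by simp [dlen, h0, h1]] at this

lemma mass_TT_ge {x : ℕ → Bool} (h0 : x 0 = true) (h1 : x 1 = true) : 1 / 2 ≤ mass x 2 := by
  have h := mass_split x 2
  rw [mass_TT3 (by simp [h0]) (by simp [h1]), mass_TT3 (by simp [h0]) (by simp [h1])] at h
  linarith

lemma mass_T_ge {x : ℕ → Bool} (h0 : x 0 = true) : 3 / 4 ≤ mass x 1 := by
  have h := mass_split x 1
  have h2 := mass_TT_ge (x := Function.update x 1 true) (by simp [h0]) (by simp)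
  have h3 := mass_TF (x := Function.update x 1 false) (by simp [h0]) (by simp)
  norm_num at h h2 h3 ⊢
  linarith

lemma mass_one_le (x : ℕ → Bool) : mass x 1 ≤ 3 / 4 := by
  cases h0 : x 0
  · rw [mass_F h0]; norm_num
  · have h := mass_split' x 0 h0
    rw [mass_zero, mass_F (x := Function.update x 0 false) (by simp)] at h
    norm_num at h ⊢
    linarith

lemma mass_TT_le {x : ℕ → Bool} (h0 : x 0 = true) (h1 : x 1 = true) : mass x 2 ≤ 1 / 2 := by
  have h := mass_split' x 1 h1
  have h2 := mass_TF (x := Function.update x 1 false) (by simp [h0]) (by simp)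
  have h3 := mass_one_le x
  norm_num at h h2 h3 ⊢
  linarith

lemma mass_nonneg (x : ℕ → Bool) (n : ℕ) : 0 ≤ mass x n := ENNReal.toReal_nonneg

lemma mass_step (n : ℕ) : ∀ x, mass x (n + 1) ≤ 3 / 4 * mass x n := by
  induction n using Nat.strong_induction_on with
  | _ n ih =>
    intro x
    have hl : 0 < dlen x := by rw [← dlen_eq]; exact wlen_pos _ _
    by_cases hn : dlen x ≤ n
    · obtain ⟨m, rfl⟩ := Nat.exists_eq_add_of_le hn
      rw [add_assoc, mass_rec, mass_rec]
      have := ih m (by omega) (dsh x)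
      linarith
    · have hl3 : dlen x ≤ 3 := by rw [← dlen_eq]; exact wlen_le _ _
      have hcase : n = 0 ∨ n = 1 ∨ n = 2 := by omega
      rcases hcase with rfl | rfl | rfl
      · rw [mass_zero]
        have := mass_one_le x
        simpa using this
      · have h0 : x 0 = true := by
          by_contra hc
          apply hn
          simp [dlen, hc]
        have h1 := mass_T_ge h0
        cases hx : x 1
        · have := mass_TF h0 hx
          norm_num at this h1 ⊢
          linarith
        · have := mass_TT_le h0 hx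
          norm_num at this h1 ⊢
          linarith
      · have h0 : x 0 = true := by
          by_contra hc
          apply hn
          simp [dlen, hc]
        have h1 : x 1 = true := by
          by_contra hc
          apply hn
          simp [dlen, hc, h0]
        have h2 := mass_TT_ge h0 h1
        have h3 := mass_TT3 h0 h1
        norm_num at h2 h3 ⊢
        linarith

lemma nuPsi_spread : Spread nuPsi (3 / 4) := by
  intro x n
  rw [← ENNReal.toReal_le_toReal (measure_ne_top _ _)
    (ENNReal.mul_ne_top (by finiteness) (measure_ne_top _ _)), ENNReal.toReal_mul]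
  have h := mass_step n x
  unfold mass at h
  convert h using 2
  norm_num

/-! #### Frequencies of the image measure -/

/-- SLLN along an injective sequence of coordinates. -/
lemma ae_freq_comp {f : ℕ → ℕ} (hfi : Function.Injective f) :
    ∀ᵐ x ∂lebesgue, Freq (fun k => x (f k)) (1 / 2) := by
  have hcoin := coin_prob half_le
  let X : ℕ → (ℕ → Bool) → ℝ := fun i x => if x i then (1 : ℝ) else 0
  have hf : Measurable (fun b : Bool => if b then (1 : ℝ) else 0) := measurable_of_finite _
  have hX : ∀ i, Measurable (X i) := fun i => hf.comp (measurable_pi_apply i)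
  have hind : ProbabilityTheory.iIndepFun X (bern (1 / 2)) :=
    ProbabilityTheory.iIndepFun_infinitePi (P := fun _ : ℕ => coin (1 / 2))
      (X := fun _ b => if b then (1 : ℝ) else 0) (fun _ => hf)
  have hlaw : ∀ j, (bern (1 / 2)).map (X j) =
      (coin (1 / 2)).map (fun b : Bool => if b then (1 : ℝ) else 0) := by
    intro j
    have h1 : (bern (1 / 2)).map (fun x => x j) = coin (1 / 2) :=
      Measure.infinitePi_map_eval (fun _ : ℕ => coin (1 / 2)) j
    rw [← h1, Measure.map_map hf (measurable_pi_apply j)]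
    rfl
  have hid : ∀ i, ProbabilityTheory.IdentDistrib (X (f i)) (X (f 0)) (bern (1 / 2)) (bern (1 / 2)) := by
    intro i
    refine ⟨(hX _).aemeasurable, (hX _).aemeasurable, ?_⟩
    rw [hlaw, hlaw]
  have hprob : IsProbabilityMeasure (bern (1 / 2)) := bern_prob half_le
  have hint : Integrable (X (f 0)) (bern (1 / 2)) := by
    apply Integrable.of_bound (hX _).aestronglyMeasurable 1
    refine Filter.Eventually.of_forall (fun x => ?_)
    simp only [X]
    split_ifs <;> simp
  have h := ProbabilityTheory.strong_law_ae (fun i => X (f i)) hint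
    (fun i j hij => hind.indepFun (fun h => hij (hfi h))) hid
  have hE : ∫ x, X (f 0) x ∂(bern (1 / 2)) = 1 / 2 := by
    have h1 : (bern (1 / 2)).map (fun x => x (f 0)) = coin (1 / 2) :=
      Measure.infinitePi_map_eval (fun _ : ℕ => coin (1 / 2)) (f 0)
    have h2 : ∫ x, X (f 0) x ∂(bern (1 / 2)) = ∫ b, (if b then (1 : ℝ) else 0) ∂(coin (1 / 2)) := by
      rw [← h1, integral_map (measurable_pi_apply _).aemeasurable hf.aestronglyMeasurable]
    rw [h2]
    have h3 : (fun b : Bool => if b then (1 : ℝ) else 0) = Set.indicator {true} (fun _ => (1 : ℝ)) := by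
      funext b; cases b <;> simp
    rw [h3, integral_indicator (MeasurableSet.singleton _)]
    simp [Measure.real, coin_true]
  rw [hE] at h
  change ∀ᵐ x ∂(bern (1 / 2)), _
  filter_upwards [h] with x hx
  simpa [Freq, X, smul_eq_mul] using hx

/-- `0/1` value of a bit -/
noncomputable def bit (b : Bool) : ℝ := if b then 1 else 0

noncomputable def ones (x : ℕ → Bool) (n : ℕ) : ℝ := ∑ i ∈ Finset.range n, bit (x i)

/-- position after `K` code words -/
def pos (y : ℕ → Bool) : ℕ → ℕ
  | 0 => 0
  | K + 1 => wlen (y 0) (y 1) + pos (sh y) K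

lemma pos_ge (K : ℕ) : ∀ y, K ≤ pos y K := by
  induction K with
  | zero => intro y; simp [pos]
  | succ K ih =>
    intro y
    have h1 := ih (sh y)
    have h2 := wlen_pos (y 0) (y 1)
    rw [pos]; omega

lemma pos_le (K : ℕ) : ∀ y, pos y K ≤ 3 * K := by
  induction K with
  | zero => intro y; simp [pos]
  | succ K ih =>
    intro y
    have h1 := ih (sh y)
    have h2 := wlen_le (y 0) (y 1)
    rw [pos]; omega

lemma ones_word (y : ℕ → Bool) :
    bit (y 0) + bit (y 1) / 2 - 1 / 2 ≤ ones (psi y) (wlen (y 0) (y 1)) - wlen (y 0) (y 1) / 2 := by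
  have h : ones (psi y) (wlen (y 0) (y 1)) =
      ∑ i ∈ Finset.range (wlen (y 0) (y 1)), bit (wbit (y 0) (y 1) i) := by
    unfold ones
    apply Finset.sum_congr rfl
    intro i hi
    rw [psi_lt (Finset.mem_range.mp hi)]
  rw [h]
  have hw : ∀ a b : Bool, ∑ i ∈ Finset.range (wlen a b), bit (wbit a b i) =
      2 * bit a + bit b := by
    intro a b
    cases a <;> cases b
    · rw [show wlen false false = 1 from rfl, Finset.sum_range_succ, Finset.sum_range_zero]
      norm_num [wbit, bit]
    · rw [show wlen false true = 2 from rfl, Finset.sum_range_succ, Finset.sum_range_succ,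
        Finset.sum_range_zero]
      norm_num [wbit, bit]
    · rw [show wlen true false = 3 from rfl, Finset.sum_range_succ, Finset.sum_range_succ,
        Finset.sum_range_succ, Finset.sum_range_zero]
      norm_num [wbit, bit]
    · rw [show wlen true true = 3 from rfl, Finset.sum_range_succ, Finset.sum_range_succ,
        Finset.sum_range_succ, Finset.sum_range_zero]
      norm_num [wbit, bit]
  rw [hw]
  cases y 0 <;> cases y 1 <;> norm_num [wlen, bit]

lemma ones_pos (K : ℕ) : ∀ y : ℕ → Bool,
    ∑ k ∈ Finset.range K, (bit (y (2 * k)) + bit (y (2 * k + 1)) / 2 - 1 / 2) ≤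
      ones (psi y) (pos y K) - pos y K / 2 := by
  induction K with
  | zero => intro y; simp [pos, ones]
  | succ K ih =>
    intro y
    have h1 := ih (sh y)
    have h2 := ones_word y
    have h3 : ones (psi y) (pos y (K + 1)) =
        ones (psi y) (wlen (y 0) (y 1)) + ones (psi (sh y)) (pos (sh y) K) := by
      rw [pos]
      unfold ones
      rw [Finset.sum_range_add]
      congr 1
      apply Finset.sum_congr rfl
      intro i _
      rw [psi_add]
    have h4 : ((pos y (K + 1) : ℕ) : ℝ) = wlen (y 0) (y 1) + pos (sh y) K := by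
      rw [pos]; push_cast; ring
    rw [Finset.sum_range_succ', h3, h4]
    have h5 : ∑ k ∈ Finset.range K, (bit (y (2 * (k + 1))) + bit (y (2 * (k + 1) + 1)) / 2 - 1 / 2)
        = ∑ k ∈ Finset.range K, (bit (sh y (2 * k)) + bit (sh y (2 * k + 1)) / 2 - 1 / 2) := by
      apply Finset.sum_congr rfl
      intro k _
      rfl
    rw [h5]
    simp only [mul_zero, zero_add]
    linarith

lemma not_freq_psi {y : ℕ → Bool} (h1 : Freq (fun k => y (2 * k)) (1 / 2))
    (h2 : Freq (fun k => y (2 * k + 1)) (1 / 2)) : ¬ Freq (psi y) (1 / 2) := by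
  intro h
  unfold Freq at h h1 h2
  have hpos : Tendsto (pos y) atTop atTop :=
    tendsto_atTop_mono (fun K => pos_ge K y) tendsto_id
  have h3 := h.comp hpos
  -- the left side tends to 0
  have hu : Tendsto (fun K : ℕ => (K : ℝ)⁻¹ * (ones (psi y) (pos y K) - pos y K / 2)) atTop (𝓝 0) := by
    have h4 : Tendsto (fun K : ℕ => 3 * |((pos y K : ℕ) : ℝ)⁻¹ * ones (psi y) (pos y K) - 1 / 2|)
        atTop (𝓝 (3 * |1 / 2 - 1 / 2|)) := by
      apply Tendsto.const_mul
      apply Tendsto.abs
      exact h3.sub_const _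
    simp only [sub_self, abs_zero, mul_zero] at h4
    refine squeeze_zero_norm' ?_ h4
    filter_upwards [eventually_gt_atTop 0] with K hK
    have hKp : (0 : ℝ) < K := by exact_mod_cast hK
    have hp1 : K ≤ pos y K := pos_ge K y
    have hp3 : pos y K ≤ 3 * K := pos_le K y
    have hpp : (0 : ℝ) < pos y K := by exact_mod_cast (by omega : 0 < pos y K)
    have hp3' : (pos y K : ℝ) ≤ 3 * K := by exact_mod_cast hp3
    have e : (K : ℝ)⁻¹ * (ones (psi y) (pos y K) - pos y K / 2) =
        ((pos y K : ℝ) / K) * (((pos y K : ℕ) : ℝ)⁻¹ * ones (psi y) (pos y K) - 1 / 2) := by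
      field_simp
    rw [Real.norm_eq_abs, e, abs_mul]
    apply mul_le_mul_of_nonneg_right _ (abs_nonneg _)
    rw [abs_of_pos (by positivity), div_le_iff₀ hKp]
    exact hp3'
  have hv : Tendsto (fun K : ℕ => (K : ℝ)⁻¹ *
      ∑ k ∈ Finset.range K, (bit (y (2 * k)) + bit (y (2 * k + 1)) / 2 - 1 / 2)) atTop
      (𝓝 (1 / 2 + 1 / 2 * (1 / 2) - 1 / 2)) := by
    have h5 := (h1.add (h2.const_mul (1 / 2))).sub_const (1 / 2)
    refine h5.congr' ?_
    filter_upwards [eventually_gt_atTop 0] with K hK
    have hKp : (K : ℝ) ≠ 0 := by exact_mod_cast hK.ne'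
    rw [Finset.sum_sub_distrib, Finset.sum_add_distrib, ← Finset.sum_div]
    simp only [Finset.sum_const, Finset.card_range, nsmul_eq_mul, bit]
    field_simp
    try ring
  have hle := le_of_tendsto_of_tendsto' hv hu (fun K =>
    mul_le_mul_of_nonneg_left (ones_pos K y) (by positivity))
  norm_num at hle

lemma nuPsi_freq : nuPsi {x | Freq x (1 / 2)} = 0 := by
  rw [nuPsi_apply]
  have h1 := ae_freq_comp (f := fun k => 2 * k) (fun a b h => by simpa using h)
  have h2 := ae_freq_comp (f := fun k => 2 * k + 1) (fun a b h => by simpa using h)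
  have h3 : ∀ᵐ y ∂lebesgue, ¬ Freq (psi y) (1 / 2) := by
    filter_upwards [h1, h2] with y a b
    exact not_freq_psi a b
  rw [ae_iff] at h3
  simpa using h3

/-- The image of the Lebesgue measure under the coding homeomorphism is singular to all
canonical measures. -/
lemma nuPsi_singular {μ : Measure (ℕ → Bool)} (hμ : IsCanonicalMeasure μ) : nuPsi ⟂ₘ μ := by
  refine spread_singular nuPsi_spread ?_ nuPsi_freq hμ
  rw [ENNReal.div_lt_iff (by norm_num) (by norm_num)]; norm_num

/-! ### One perfectly null set for many measures -/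

lemma Spread.atom {ν : Measure (ℕ → Bool)} [IsProbabilityMeasure ν] {q : ℝ≥0∞} (hq : Spread ν q)
    (hq1 : q < 1) (x : ℕ → Bool) : ν {x} = 0 := by
  have h : ∀ n : ℕ, ν (cyl x n) ≤ q ^ n := by
    intro n
    induction n with
    | zero => rw [pow_zero]; exact prob_le_one
    | succ n ih =>
      rw [pow_succ']
      exact (hq x n).trans (mul_le_mul_right ih q)
  have h2 : ∀ n : ℕ, ν {x} ≤ q ^ n := by
    intro n
    refine (measure_mono ?_).trans (h n)
    rintro y rfl i _
    rfl
  exact le_antisymm (ge_of_tendsto' (ENNReal.tendsto_pow_atTop_nhds_zero_of_lt_one hq1) h2) zero_le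

lemma bern_unfair {p : ℝ≥0∞} (h0 : 0 < p) (h1 : p < 1) (h2 : p ≠ 1 / 2) : Unfair (bern p) := by
  refine ⟨bern_prob h1.le, ⟨max p (1 - p), ?_, bern_spread h1.le⟩, ?_⟩
  · refine max_lt h1 ?_
    exact ENNReal.sub_lt_self (by simp) (by simp) h0.ne'
  · have h := ae_freq (p := p) h1.le
    have h3 : ∀ᵐ x ∂(bern p), ¬ Freq x (1 / 2) := by
      filter_upwards [h] with x hx h4
      have h5 := Freq.unique hx h4
      apply h2
      rw [← ENNReal.ofReal_toReal (ne_top_of_lt h1), h5]
      rw [ENNReal.ofReal_div_of_pos (by norm_num)]; simp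
    simpa [ae_iff] using h3

lemma nuPsi_unfair : Unfair nuPsi :=
  ⟨inferInstance, ⟨3 / 4, by rw [ENNReal.div_lt_iff (by norm_num) (by norm_num)]; norm_num,
    nuPsi_spread⟩, nuPsi_freq⟩

lemma Unfair.singular {ν : Measure (ℕ → Bool)} (h : Unfair ν) {μ : Measure (ℕ → Bool)}
    (hμ : IsCanonicalMeasure μ) : ν ⟂ₘ μ := by
  obtain ⟨hp, ⟨q, hq1, hq⟩, hf⟩ := h
  exact spread_singular hq hq1 hf hμ

/-- the exceptional set of `P` -/
def exc (P : Set (ℕ → Bool)) : Set (ℕ → Bool) :=
  {x | x ∈ P ∧ ∃ᶠ n in atTop, ¬ Branching P x n} ∪ {x | Freq x (1 / 2)}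

lemma Unfair.exc_null {ν : Measure (ℕ → Bool)} (h : Unfair ν) (P : Set (ℕ → Bool)) :
    ν (exc P) = 0 := by
  obtain ⟨hp, ⟨q, hq1, hq⟩, hf⟩ := h
  exact measure_union_null (spread_null_inf hq hq1 P) hf

lemma freq_of_not_exc {P : Set (ℕ → Bool)} {h : (ℕ → Bool) ≃ₜ P} (hc : IsCanonical P h)
    {y : ℕ → Bool} (hy : (h y : ℕ → Bool) ∉ exc P) : ¬ Freq y (1 / 2) := by
  intro hfr
  apply hy
  by_cases c1 : ∃ᶠ n in atTop, ¬ Branching P (h y : ℕ → Bool) n
  · exact Or.inl ⟨(h y).2, c1⟩
  · right
    have hev : ∀ᶠ n in atTop, Branching P (h y : ℕ → Bool) n := by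
      simpa [Filter.Frequently] using c1
    obtain ⟨K, hK⟩ := eventually_atTop.mp hev
    obtain ⟨a, ha⟩ := turns_shift (P := P) (x := (h y : ℕ → Bool)) (K := K) hK
    have ht : turns P (h y) = y := funext (hc y)
    rw [ht] at ha
    exact Freq.shift (x := y) (y := (h y : ℕ → Bool)) (a := K) (b := a) (fun i => (ha i).symm) hfr

open Cardinal in
/-- The covering hypothesis transfers to every diffused probability measure. -/
lemma cov_transfer
    (hcov : ∀ F : Set (Set (ℕ → Bool)), #F < 𝔠 → (∀ N ∈ F, lebesgue N = 0) →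
      ⋃₀ F ≠ Set.univ) (ν : Measure (ℕ → Bool)) [IsProbabilityMeasure ν] (hν : ∀ x, ν {x} = 0)
    (F : Set (Set (ℕ → Bool))) (hF : #F < 𝔠) (hN : ∀ N ∈ F, ν N = 0) : ∃ x, ∀ N ∈ F, x ∉ N := by
  obtain ⟨g, hg⟩ := exists_iso ν hν
  have h := hcov ((fun N => g ⁻¹' N) '' F) (lt_of_le_of_lt mk_image_le hF) (by
    rintro _ ⟨N, hNF, rfl⟩
    have := hN N hNF
    rwa [← hg, g.map_apply] at this)
  rw [ne_eq, Set.eq_univ_iff_forall] at h
  push Not at h
  obtain ⟨y, hy⟩ := h
  refine ⟨g y, fun N hNF hx => hy ?_⟩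
  exact ⟨_, ⟨N, hNF, rfl⟩, hx⟩

open Cardinal in
lemma mk_finiteMeasure_le : #{ν : Measure (ℕ → Bool) // IsFiniteMeasure ν} ≤ 𝔠 := by
  set C : Set (Set (ℕ → Bool)) :=
    generateSetAlgebra (MeasurableSpace.countableGeneratingSet (ℕ → Bool)) with hC
  have hCc : C.Countable :=
    countable_generateSetAlgebra (MeasurableSpace.countable_countableGeneratingSet (α := ℕ → Bool))
  have hCg : (MeasurableSpace.pi : MeasurableSpace (ℕ → Bool)) = MeasurableSpace.generateFrom C := by
    rw [hC, generateFrom_generateSetAlgebra_eq]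
    exact MeasurableSpace.generateFrom_countableGeneratingSet.symm
  have hCa : IsSetAlgebra C := isSetAlgebra_generateSetAlgebra
  have hCp : IsPiSystem C := fun s hs t ht _ => hCa.inter_mem hs ht
  have hinj : Function.Injective (fun (ν : {ν : Measure (ℕ → Bool) // IsFiniteMeasure ν})
      (s : C) => ν.1 s.1) := by
    intro ν ν' h
    have hfin := ν.2
    apply Subtype.ext
    refine ext_of_generate_finite C hCg hCp (fun s hs => congrFun h ⟨s, hs⟩) ?_
    have hu : Set.univ ∈ C := hCa.univ_mem
    exact congrFun h ⟨_, hu⟩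
  refine (Cardinal.mk_le_of_injective hinj).trans ?_
  have : Countable C := hCc.to_subtype
  have hE : #ℝ≥0∞ ≤ 𝔠 := by
    have h1 : Function.Injective (fun x : ℝ≥0∞ => (x.toReal, decide (x = ⊤))) := by
      intro a b hab
      simp only [Prod.mk.injEq] at hab
      obtain ⟨h1, h2⟩ := hab
      by_cases ha : a = ⊤
      · have : b = ⊤ := by simpa [ha] using h2
        rw [ha, this]
      · have hb : b ≠ ⊤ := by
          intro hb
          simp [ha, hb] at h2
        exact (ENNReal.toReal_eq_toReal_iff' ha hb).mp h1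
    refine (Cardinal.mk_le_of_injective h1).trans ?_
    rw [mk_prod, lift_id, lift_id, mk_real, mk_bool]
    exact (mul_le_mul' le_rfl (by
      exact (Cardinal.nat_lt_continuum 2).le)).trans (mul_eq_self aleph0_le_continuum).le
  calc #(C → ℝ≥0∞) = #ℝ≥0∞ ^ #C := by rw [mk_arrow, lift_id, lift_id]
    _ ≤ 𝔠 ^ ℵ₀ := by
      refine (Cardinal.power_le_power_right hE).trans ?_
      exact Cardinal.power_le_power_left continuum_ne_zero (Cardinal.mk_le_aleph0_iff.mpr this)
    _ = 𝔠 := continuum_power_aleph0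

open Cardinal in
/-- If fewer than continuum many null sets never cover the space and all small sets are null,
then one perfectly null set is non-null for all unfair measures at once. -/
theorem one_set
    (hcov : ∀ F : Set (Set (ℕ → Bool)), #F < 𝔠 → (∀ N ∈ F, lebesgue N = 0) →
      ⋃₀ F ≠ Set.univ)
    (hnon : ∀ Z : Set (ℕ → Bool), #Z < 𝔠 → lebesgue Z = 0) :
    ∃ A, PerfectlyNull A ∧ ∀ ν, Unfair ν → ν A ≠ 0 := by
  classical
  let ι : Type := (Cardinal.continuum.{0}).ord.ToType
  have hι : #ι = 𝔠 := mk_ord_toType _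
  have hIio : ∀ i : ι, #(Set.Iio i) < 𝔠 := by
    intro i
    have h1 : #(Set.Iio i) < #ι := mk_Iio_lt i (by simp [ι])
    rwa [hι] at h1
  have hIic : ∀ i : ι, #(Set.Iic i) < 𝔠 := by
    intro i
    have : Set.Iic i = insert i (Set.Iio i) := by
      ext j; simp [le_iff_eq_or_lt]
    rw [this]
    refine lt_of_le_of_lt mk_insert_le ?_
    exact add_lt_of_lt aleph0_le_continuum (hIio i) (one_lt_aleph0.trans_le aleph0_le_continuum)
  have hmeas : #{t : Set (ℕ → Bool) | MeasurableSet t} ≤ 𝔠 := by
    have h2 := MeasurableSpace.cardinal_measurableSet_le_continuum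
      (s := MeasurableSpace.countableGeneratingSet (ℕ → Bool))
      ((MeasurableSpace.countable_countableGeneratingSet (α := ℕ → Bool)).le_aleph0.trans
        aleph0_le_continuum)
    rw [MeasurableSpace.generateFrom_countableGeneratingSet] at h2
    exact h2
  let 𝒯 : Type := {t : Measure (ℕ → Bool) × Set (ℕ → Bool) //
    Unfair t.1 ∧ MeasurableSet t.2 ∧ t.1 t.2 = 0}
  let PP : Type := {P : Set (ℕ → Bool) // Perfect P ∧ P.Nonempty}
  have h𝒯 : #𝒯 ≤ #ι := by
    rw [hι]
    have h1 : Function.Injective (fun t : 𝒯 =>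
        ((⟨t.1.1, by have := t.2.1.1; infer_instance⟩ : {ν : Measure (ℕ → Bool) // IsFiniteMeasure ν}),
          (⟨t.1.2, t.2.2.1⟩ : {t : Set (ℕ → Bool) | MeasurableSet t}))) := by
      intro s t h
      simp only [Prod.mk.injEq, Subtype.mk.injEq] at h
      exact Subtype.ext (Prod.ext h.1 h.2)
    refine (Cardinal.mk_le_of_injective h1).trans ?_
    rw [mk_prod, lift_id, lift_id]
    exact (mul_le_mul' mk_finiteMeasure_le hmeas).trans (mul_eq_self aleph0_le_continuum).le
  have hPP : #PP ≤ #ι := by
    rw [hι]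
    refine le_trans ?_ hmeas
    exact Cardinal.mk_le_of_injective
      (f := fun P : PP => (⟨P.1, P.2.1.closed.measurableSet⟩ : {t : Set (ℕ → Bool) | MeasurableSet t}))
      (fun a b h => by
        have := congrArg Subtype.val h
        exact Subtype.ext this)
  have hne1 : Nonempty 𝒯 := ⟨⟨(nuPsi, ∅), nuPsi_unfair, MeasurableSet.empty, measure_empty⟩⟩
  have hne2 : Nonempty PP := by
    obtain ⟨μ, P, hP, hne, -⟩ := exists_canonicalMeasure
    exact ⟨⟨P, hP, hne⟩⟩
  obtain ⟨e1⟩ := Cardinal.le_def _ _ |>.mp h𝒯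
  obtain ⟨e2⟩ := Cardinal.le_def _ _ |>.mp hPP
  let f : ι → 𝒯 := Function.invFun e1
  have hf : Function.Surjective f := Function.invFun_surjective e1.injective
  let g : ι → PP := Function.invFun e2
  have hg : Function.Surjective g := Function.invFun_surjective e2.injective
  have hex : ∀ i : ι, ∃ x : ℕ → Bool, x ∉ (f i).1.2 ∧ ∀ j ≤ i, x ∉ exc (g j).1 := by
    intro i
    have hU := (f i).2.1
    have hp := hU.1
    obtain ⟨q, hq1, hq⟩ := hU.2.1
    obtain ⟨x, hx⟩ := cov_transfer hcov (f i).1.1 (fun x => Spread.atom hq hq1 x)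
      (insert (f i).1.2 ((fun j => exc (g j).1) '' Set.Iic i)) (by
        refine lt_of_le_of_lt mk_insert_le ?_
        exact add_lt_of_lt aleph0_le_continuum (lt_of_le_of_lt mk_image_le (hIic i))
          (one_lt_aleph0.trans_le aleph0_le_continuum)) (by
        rintro N (rfl | ⟨j, -, rfl⟩)
        · exact (f i).2.2.2
        · exact hU.exc_null _)
    exact ⟨x, hx _ (Set.mem_insert _ _), fun j hj => hx _ (Set.mem_insert_of_mem _ ⟨j, hj, rfl⟩)⟩
  choose a ha1 ha2 using hex
  refine ⟨Set.range a, ?_, ?_⟩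
  · rw [perfectlyNull_iff]
    rintro μ ⟨P, hP, hne, h, hc, rfl⟩
    rw [(canonical_emb hP h).map_apply]
    obtain ⟨j, hj⟩ := hg ⟨P, hP, hne⟩
    have hleb : lebesgue {y | ¬ Freq y (1 / 2)} = 0 := by
      have h1 := ae_freq (p := 1 / 2) half_le
      have h2 : ((1 / 2 : ℝ≥0∞)).toReal = 1 / 2 := by simp
      rw [h2] at h1
      exact h1
    have hsub : (fun y => (h y : ℕ → Bool)) ⁻¹' (Set.range a) ⊆
        (fun y => (h y : ℕ → Bool)) ⁻¹' (a '' Set.Iio j) ∪ {y | ¬ Freq y (1 / 2)} := by
      rintro y ⟨i, hi⟩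
      by_cases hij : i < j
      · exact Or.inl ⟨i, hij, hi⟩
      · right
        apply freq_of_not_exc hc
        have h3 := ha2 i j (not_lt.mp hij)
        rw [hj] at h3
        change (h y : ℕ → Bool) ∉ exc P
        have hi' : a i = (h y : ℕ → Bool) := hi
        rw [← hi']
        exact h3
    refine measure_mono_null hsub (measure_union_null ?_ hleb)
    apply hnon
    refine lt_of_le_of_lt (Cardinal.mk_preimage_of_injective _ _ (canonical_emb hP h).injective) ?_
    exact lt_of_le_of_lt mk_image_le (hIio j)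
  · intro ν hν h0
    obtain ⟨i, hi⟩ := hf ⟨(ν, toMeasurable ν (Set.range a)), hν, measurableSet_toMeasurable _ _, by
      rw [measure_toMeasurable, h0]⟩
    apply ha1 i
    rw [hi]
    exact subset_toMeasurable _ _ ⟨i, rfl⟩

open Cardinal in
lemma cov_of_CH (CH : Cardinal.continuum.{0} = Cardinal.aleph 1) : CovContinuum := by
  intro F hF hN hU
  rw [CH] at hF
  have hc : F.Countable := le_aleph0_iff_set_countable.mp (lt_aleph_one_iff.mp hF)
  have h0 : lebesgue (⋃₀ F) = 0 := (measure_sUnion_null_iff hc).mpr hN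
  rw [hU, measure_univ] at h0
  exact one_ne_zero h0

open Cardinal in
lemma non_of_CH (CH : Cardinal.continuum.{0} = Cardinal.aleph 1) : NonContinuum := by
  intro Z hZ
  rw [CH] at hZ
  have hc : Z.Countable := le_aleph0_iff_set_countable.mp (lt_aleph_one_iff.mp hZ)
  exact hc.measure_zero _

/-- The class of perfectly null sets is not invariant under homeomorphisms. -/
theorem not_homeo_invariant (H : SierpinskiType) :
    ∃ (φ : (ℕ → Bool) ≃ₜ (ℕ → Bool)) (A : Set (ℕ → Bool)),
      PerfectlyNull A ∧ lebesgue (φ '' A) ≠ 0 ∧ ¬ PerfectlyNull (φ '' A) := by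
  obtain ⟨A, hA, hA0⟩ := exists_perfectlyNull H nuPsi
    (fun h => by
      have h1 : nuPsi Set.univ = 1 := measure_univ
      rw [h] at h1
      simp at h1) (fun μ hμ => nuPsi_singular hμ)
  have himg : psiHomeo.symm '' A = psi ⁻¹' A := by
    ext y
    simp only [Set.mem_image, Set.mem_preimage]
    constructor
    · rintro ⟨x, hx, rfl⟩
      rw [← psiHomeo_apply, Homeomorph.apply_symm_apply]
      exact hx
    · intro hy
      exact ⟨psi y, hy, by rw [← psiHomeo_apply, Homeomorph.symm_apply_apply]⟩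
  have h0 : lebesgue (psiHomeo.symm '' A) ≠ 0 := by
    rw [himg, ← nuPsi_apply]
    exact hA0
  refine ⟨psiHomeo.symm, A, hA, h0, fun hpn => h0 ?_⟩
  -- the whole space is perfect and its canonical measure is the Lebesgue measure
  obtain ⟨h, hc, hz⟩ := hpn Set.univ (by
    refine ⟨isClosed_univ, ?_⟩
    rw [preperfect_iff_nhds]
    intro x _ U hU
    obtain ⟨n, hn⟩ := exists_cyl hU
    refine ⟨Function.update x n (!x n), ⟨hn ?_, trivial⟩, ?_⟩
    · intro i hi
      exact Function.update_of_ne (by omega) _ _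
    · intro h
      have := congrFun h n
      simp at this) ⟨fun _ => true, trivial⟩
  have hid : ∀ y, (h y : ℕ → Bool) = y := by
    intro y
    have hb : ∀ x n, Branching (Set.univ : Set (ℕ → Bool)) x n := by
      intro x n b
      refine ⟨Function.update x n b, trivial, fun i hi => Function.update_of_ne (by omega) _ _, ?_⟩
      simp
    funext k
    have h1 := hc y k
    have h2 : Nat.nth (Branching Set.univ (h y : ℕ → Bool)) k = k := by
      classical
      have h3 := Nat.nth_count (p := Branching Set.univ (h y : ℕ → Bool)) (n := k) (hb _ _)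
      have h4 : Nat.count (Branching Set.univ (h y : ℕ → Bool)) k = k := by
        rw [Nat.count_iff_forall]
        intro n _
        exact hb _ _
      rwa [h4] at h3
    rw [h2] at h1
    exact h1
  convert hz using 2
  ext y
  simp only [Set.mem_ofPred_eq, hid]

/-- There is a perfectly null set which is not universally null. -/
theorem pn_not_un (H : SierpinskiType) : ∃ A, PerfectlyNull A ∧ ¬ UniversallyNull A := by
  obtain ⟨φ, A, hA, h0, -⟩ := not_homeo_invariant H
  refine ⟨A, hA, fun hU => h0 ?_⟩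
  have h1 : φ '' A = φ.toMeasurableEquiv '' A := rfl
  rw [h1]
  exact UniversallyNull.image hU φ.toMeasurableEquiv lebesgue inferInstance leb_atom

/-- Unfair measures are not in the band. -/
theorem Unfair.not_inBand {ν : Measure (ℕ → Bool)} (h : Unfair ν) : ¬ InBand ν := by
  rintro ⟨κ, hκ, hac⟩
  have hp := h.1
  have hs : ν ⟂ₘ Measure.sum κ := by
    rw [Measure.MutuallySingular.sum_right]
    exact fun n => h.singular (hκ n)
  have h0 : ν = 0 := Measure.eq_zero_of_absolutelyContinuous_of_mutuallySingular hac hs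
  have h1 : ν Set.univ = 1 := measure_univ
  rw [h0] at h1
  simp at h1

end Pool.Agent.Y575.PN
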